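import Mathlib
import Pool.Agent.V1213.GN.Rate

/-!
# Cusp forms on `GL(n)`, all `n`: the exponent `1/2 - 1/(2 ⌊n/2⌋)` at almost all places and in logarithmic windows

Let `π` be a unitary cuspidal automorphic representation of `GL_n` over a number field `K`, `n ≥ 2`, unramified outside
the finite set `S` of places (`K = ℚ`, `S = ∅` and trivial central character: the spherical cusp forms on `PGL_n`), with
Satake parameters `α_{v,1}, …, α_{v,n}`, and let `e_k(v)` be their `k`-th elementary symmetric function, that is, the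
eigenvalue of the `k`-th fundamental Hecke operator at `v`, divided by `(N v)^{k (n - k) / 2}`. We show:

* *Hecke eigenvalues.* For every `b > 0` the places with `∑_{k=1}^n |e_k(v)|² / (N v)^{k-1} ≥ b` have upper Dirichlet
  density at most `1 / b`.
* *Satake parameters.* Let `κ = 1/2 - 1/(2 ⌊n/2⌋)`. For every `B ≥ 3/2` the places with `max_i |α_{v,i}| ≥ B (N v)^κ`
  have upper Dirichlet density at most `(n / B)²`. So, for every function `ψ(v) → ∞`,
  `max_i |α_{v,i}| ≤ ψ(v) (N v)^κ` for all places outside a set of density zero.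
* *Windows of logarithmic length.* Let `u_m ≥ 1` be a lacunary sequence, for example `u_m = b^m`. For almost every
  `a > 0`, for all members `π_j` of a given countable family (for example all `π`, over all number fields, for all `n`),
  all `A ≥ 0`, `ε > 0` and all large `m`: **all** places `v` with `|N v - a u_m| ≤ (log N v)^A` satisfy
  `(N v)^{-κ} (log N v)^{-(A/2+ε)} < |α_{v,i}| < (N v)^κ (log N v)^{A/2+ε}` and
  `|e_k(v)|² < (N v)^{k-1} (log N v)^{A+ε}`, `1 ≤ k ≤ n`.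

Here `κ = 0` for `n = 2, 3`, `κ = 1/4` for `n = 4, 5` and `κ = 1/3` for `n = 6, 7`, while the exponents which are known
for all places are `7/64`, `5/14`, `9/22` for `n = 2, 3, 4` and `1/2 - 1/(n² + 1)` for `n ≥ 5`. In `WindowsOfPlaces` of
`MP_8410ab_nt` it was shown that at most `C X^{⌊n/2⌋ (1 - 2 k) + ε}` places with `N v ≤ X` have a parameter `≥ (N v)^k`,
which gives all exponents `k > κ`. The end point `k = κ` needs the simple pole of the Rankin-Selberg `L`-function; the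
bounds for logarithmic windows in `RamanujanUpToLogarithms` of `MP_08cfa9_nt` need the automorphy of the exterior
powers, which is known for `n ≤ 4` only.

The proof. By Newton's identities and Cauchy's inequality `A_k = |e_k|² x^k` and `B_k = |p_k|² x^k`, `p_k` the power sums,
satisfy `k A_k ≤ ∑_{j=1}^k B_j A_{k-j}`, so that `∑_k A_k ≤ exp (∑_j B_j / j)`: the Euler factor at `v` of
`L(s, π × π~)` is at least `∑_k |e_k(v)|² (N v)^{-ks}`. Therefore
`∑_v log (1 + ∑_k |e_k(v)|² (N v)^{-kσ}) ≤ log (1 / (σ - 1)) + C`. If `y = |α_{v,i}| ≥ 3/2` then, as `|e_{n-k}| = |e_k|`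
for the unitary `π_v`, the characteristic polynomial shows that `y^k ≤ n |e_k(v)|` for some `1 ≤ k ≤ n / 2`.
-/

set_option autoImplicit false

namespace Pool.Agent.Results.MP_fa98d2_nt.ExceptionalPlacesDensity

open NumberField IsDedekindDomain Filter Topology MeasureTheory Pool.Agent.V1213.GN
open Pool.Agent.V1213.GF (Places nm)

open scoped Classical in
/-- **The exponent `1/2 - 1/(2 ⌊n/2⌋)`.** -/
theorem result :
    (∀ (K : Type) [Field K] [NumberField K] (S : Finset (HeightOneSpectrum (𝓞 K))) (n : ℕ)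
      (α : Places S → Fin n → ℂ), 2 ≤ n → Cuspidal α →
      -- the main inequality
      (∃ C : ℝ, ∀ᶠ σ : ℝ in 𝓝[>] 1,
        (Summable fun v : Places S => Real.log (1 + ∑ k ∈ Finset.range n,
          ‖el (α v) (k + 1)‖ ^ 2 * ((nm v.1 : ℝ) ^ (-σ)) ^ (k + 1))) ∧
        ∑' v : Places S, Real.log (1 + ∑ k ∈ Finset.range n,
          ‖el (α v) (k + 1)‖ ^ 2 * ((nm v.1 : ℝ) ^ (-σ)) ^ (k + 1)) ≤ Real.log (1 / (σ - 1)) + C) ∧
      -- the places with a large Hecke eigenvalue
      (∀ b : ℝ, 0 ≤ b → ∃ C : ℝ, ∀ᶠ s : ℝ in 𝓝[>] 1,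
        b * ∑' v : Places S, (if b ≤ ∑ k ∈ Finset.range n, ‖el (α v) (k + 1)‖ ^ 2 / (nm v.1 : ℝ) ^ k
          then (nm v.1 : ℝ) ^ (-s) else 0) ≤ Real.log (1 / (s - 1)) + C) ∧
      -- the places with a large Satake parameter
      (∀ B : ℝ, 3 / 2 ≤ B → ∃ C : ℝ, ∀ᶠ s : ℝ in 𝓝[>] 1,
        (B / n) ^ 2 * ∑' v : Places S,
          (if ∃ i, B * (nm v.1 : ℝ) ^ (1 / 2 - 1 / (2 * ((n / 2 : ℕ) : ℝ))) ≤ ‖α v i‖
            then (nm v.1 : ℝ) ^ (-s) else 0) ≤ Real.log (1 / (s - 1)) + C)) ∧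
    -- windows of logarithmic length
    (∀ (J : Type) [Countable J] (K : J → Type) [∀ j, Field (K j)] [∀ j, NumberField (K j)]
      (S : ∀ j, Finset (HeightOneSpectrum (𝓞 (K j)))) (n : J → ℕ) (α : ∀ j, Places (S j) → Fin (n j) → ℂ)
      (u : ℕ → ℝ) (b : ℝ), (∀ j, 2 ≤ n j) → (∀ j, Cuspidal (α j)) →
      1 < b → (∀ m, 1 ≤ u m) → (∀ m, b * u m ≤ u (m + 1)) →
      ∀ᵐ a : ℝ, 0 < a → ∀ (j : J) (A ε : ℝ), 0 ≤ A → 0 < ε → ∀ᶠ m in atTop, ∀ v : Places (S j),
        |(nm v.1 : ℝ) - a * u m| ≤ Real.log (nm v.1) ^ A →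
          (∀ k, 1 ≤ k → k ≤ n j →
            ‖el (α j v) k‖ ^ 2 < (nm v.1 : ℝ) ^ (k - 1) * Real.log (nm v.1) ^ (A + ε)) ∧
          ∀ i, ((nm v.1 : ℝ) ^ (1 / 2 - 1 / (2 * ((n j / 2 : ℕ) : ℝ))) *
              Real.log (nm v.1) ^ (A / 2 + ε))⁻¹ < ‖α j v i‖ ∧
            ‖α j v i‖ < (nm v.1 : ℝ) ^ (1 / 2 - 1 / (2 * ((n j / 2 : ℕ) : ℝ))) *
              Real.log (nm v.1) ^ (A / 2 + ε)) := by
  refine ⟨?_, ?_⟩
  · intro K _ _ S n α hn h
    refine ⟨main_ineq h, fun b hb => ?_, fun B hB => dens_entry h hn hB⟩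
    exact dens_wt h (by omega) hb
  · intro J _ K _ _ S n α u b hn h hb hu1 hu
    have h1 := fun j => windows (hn j) (h j) (u := u) (b := b) ⟨hb, hu1, hu⟩
    rw [← ae_all_iff] at h1
    filter_upwards [h1] with a ha ha0 j A ε hA hε
    exact ha j ha0 A ε hA hε

end Pool.Agent.Results.MP_fa98d2_nt.ExceptionalPlacesDensity
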