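import Mathlib
import Pool.Agent.H274.Iso4
import Pool.Agent.TH949.TX.Sph

/-!
# Spherical cusp forms on `PGL_n`: large and small Hecke eigenvalues balance at every scale

Let `φ_t`, `t ∈ T` (`T` finite, not empty), be spherical cusp forms on `PGL_{n_t}` over `ℚ`, `n_t ≥ 2`, with Satake
parameters `α_{t,i,p}`, Langlands parameters `μ_{t,i}` at the real place, `θ_{t,p} = max_i |log_p |α_{t,i,p}||` and
`θ_{t,∞} = max_i |Re μ_{t,i}|`. Let `W(p^k) = ∑_t |∑_i α_{t,i,p}^k|²`; its mean value over the primes is `|T|`. The *excess*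
and the *deficiency* are

  `E(X) = ∑_{p^k ≤ X} max(0, W(p^k) - |T|)`,  `D(X) = ∑_{p^k ≤ X} max(0, |T| - W(p^k))`.

Let `b` be the least upper bound of the real parts of the zeros and poles of the meromorphic continuation of
`∏_t L(s, π_t × π_t~) / ζ(s)^{|T|}`. Then `1/2 ≤ b ≤ 1`, **`2 θ_{t,∞} ≤ b`** for all `t`, and

* if `c < b` or `c < 2 θ_{t,p}` for some `t` and `p` (so in particular if `c < 2 θ_{t,v}` for some place `v ≤ ∞`), then for
  every `δ > 0` and **all** large `X` the sum of `max(0, |T| - W(p^k))` over the `p^k` in `[X^{1-δ}, X]` is `≥ X^c`; if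
  also `c ≥ 1/2`, this holds for the sum over the primes `p` in `[X^{1-δ}, X]`;
* for every `ε > 0` and **all** large `X`: `E(X) ≤ X^ε D(X^{1+ε})` and `D(X) ≤ X^ε (X^b + E(X^{1+ε}))`;
* for each `c`: `D(X) ≤ X^{c+o(1)}` if and only if `b ≤ c` and `E(X) ≤ X^{c+o(1)}`.

So a violation of the Ramanujan conjecture at any place forces small Hecke eigenvalues in every interval
`[X^{1-δ}, X]`, the large traces are matched by small ones at every scale, and, apart from the term `X^b` prescribed by the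
zeros and poles, there are no more small traces than the large ones require.
-/

set_option autoImplicit false

namespace Pool.Agent.Results.MP_fa98d2_nt.ExcessDeficiencyFamilies

open Filter
open Pool.Agent.W189.TP (PS)
open Pool.Agent.TH949.RES (SphericalCuspForm CuspidalRep logL rs pe)
open Pool.Agent.TH949.TX (sph_rep logRS_rs)
open Pool.Agent.H274.Iso (IsobaricRep SingD WT ExcY DefY lgD)

section defs

variable {T : Type*} [Fintype T] {n : T → ℕ}

/-- `W(p^k) = ∑_t |∑_i α_{t,i,p}^k|²` -/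
noncomputable def W (α : ∀ t, Nat.Primes → Fin (n t) → ℂ) (p : Nat.Primes) (k : ℕ) : ℝ :=
  ∑ t, ‖∑ i, α t p i ^ k‖ ^ 2

open scoped Classical in
/-- the excess `E(X) = ∑_{p^k ≤ X} max(0, W(p^k) - |T|)`, `k ≥ 1` -/
noncomputable def excess (α : ∀ t, Nat.Primes → Fin (n t) → ℂ) (X : ℝ) : ℝ :=
  ∑' x : Nat.Primes × ℕ, if ((x.1 : ℕ) : ℝ) ^ (x.2 + 1) ≤ X then
    max 0 (W α x.1 (x.2 + 1) - Fintype.card T) else 0

open scoped Classical in
/-- the deficiency `D(X) = ∑_{p^k ≤ X} max(0, |T| - W(p^k))`, `k ≥ 1` -/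
noncomputable def deficiency (α : ∀ t, Nat.Primes → Fin (n t) → ℂ) (X : ℝ) : ℝ :=
  ∑' x : Nat.Primes × ℕ, if ((x.1 : ℕ) : ℝ) ^ (x.2 + 1) ≤ X then
    max 0 (Fintype.card T - W α x.1 (x.2 + 1)) else 0

open scoped Classical in
/-- the part of the deficiency from the prime powers in `[X', X]` -/
noncomputable def deficiencyBetween (α : ∀ t, Nat.Primes → Fin (n t) → ℂ) (X' X : ℝ) : ℝ :=
  ∑' x : Nat.Primes × ℕ, if X' ≤ ((x.1 : ℕ) : ℝ) ^ (x.2 + 1) ∧ ((x.1 : ℕ) : ℝ) ^ (x.2 + 1) ≤ X then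
    max 0 (Fintype.card T - W α x.1 (x.2 + 1)) else 0

open scoped Classical in
/-- the part of the deficiency from the primes in `[X', X]` -/
noncomputable def deficiencyOfPrimes (α : ∀ t, Nat.Primes → Fin (n t) → ℂ) (X' X : ℝ) : ℝ :=
  ∑' p : Nat.Primes, if X' ≤ ((p : ℕ) : ℝ) ∧ ((p : ℕ) : ℝ) ≤ X then
    max 0 (Fintype.card T - W α p 1) else 0

/-- the meromorphic continuation of `∏_t L(s, π_t × π_t~) / ζ(s)^{|T|}` has a zero or a pole of real part `> c` -/
def ZeroPole (α : ∀ t, Nat.Primes → Fin (n t) → ℂ) (c : ℝ) : Prop :=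
  ∃ (F : ℂ → ℂ) (ρ : ℂ), MeromorphicOn F Set.univ ∧
    (∀ s : ℂ, 1 < s.re → F s * riemannZeta s ^ Fintype.card T = Complex.exp (∑ t, logL (α t) s)) ∧
    c < ρ.re ∧ meromorphicOrderAt F ρ ≠ 0

end defs

theorem iso_of {n : ℕ} {S : Finset Nat.Primes} {α : PS S → Fin n → ℂ} {β : Nat.Primes → Fin (n ^ 2) → ℂ}
    {κ : Fin (n ^ 2 - 1) → ℂ} (h : CuspidalRep S α β κ) : IsobaricRep 1 S α β κ := by
  obtain ⟨G, Ξ, Q, ω, hG, hΞ, hQ, hω, hE, hgr, hid, hfe⟩ := h.continuation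
  exact ⟨h.ne_zero, h.unitary, h.conj, h.summable, G, Ξ, Q, ω, hG, hΞ, hQ, hω,
    fun s hs => by rw [pow_one]; exact hE s hs, hgr, fun s hs => by rw [pow_one, pow_one]; exact hid s hs, hfe⟩

theorem kappa_zero {n : ℕ} {α : Nat.Primes → Fin n → ℂ} {μ : Fin n → ℂ} (h : SphericalCuspForm α μ)
    {κ : Fin (n ^ 2 - 1) → ℂ} (hκp : ∀ f : ℂ → ℂ, f 0 * ∏ j, f (κ j) = ∏ i, ∏ j, f (μ i - μ j)) (i : Fin n)
    (hx0 : 0 < 2 * |(μ i).re|) : ∃ j, κ j = -((2 * |(μ i).re| : ℝ) : ℂ) := by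
  set x : ℝ := 2 * |(μ i).re| with hx
  obtain ⟨i', j', hij⟩ : ∃ i' j' : Fin n, μ i' - μ j' = -(x : ℂ) := by
    obtain ⟨τ, hτ⟩ := h.unitary_real
    have e1 : μ i + (starRingEnd ℂ) (μ i) = ((2 * (μ i).re : ℝ) : ℂ) := Complex.add_conj _
    rcases le_total 0 (μ i).re with h1 | h1
    · refine ⟨τ i, i, ?_⟩
      rw [hx, abs_of_nonneg h1, hτ i, ← e1]
      ring
    · refine ⟨i, τ i, ?_⟩
      rw [hx, abs_of_nonpos h1, hτ i, sub_neg_eq_add, e1]
      push_cast
      ring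
  classical
  have h1 := hκp fun z => if z = -(x : ℂ) then 0 else 1
  have h2 : ∏ i, ∏ j, (fun z : ℂ => if z = -(x : ℂ) then (0 : ℂ) else 1) (μ i - μ j) = 0 := by
    refine Finset.prod_eq_zero (Finset.mem_univ i') (Finset.prod_eq_zero (Finset.mem_univ j') ?_)
    simp only
    rw [if_pos hij]
  rw [h2] at h1
  rw [if_neg, one_mul, Finset.prod_eq_zero_iff] at h1
  · obtain ⟨j, -, hj⟩ := h1
    refine ⟨j, ?_⟩
    by_contra h3
    rw [if_neg h3] at hj
    exact one_ne_zero hj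
  · intro h3
    have h4 : (0 : ℝ) = -x := by exact_mod_cast h3
    linarith

/-- **Spherical cusp forms on `PGL_n`: excess and deficiency at every scale.** -/
theorem result {T : Type*} [Fintype T] [Nonempty T] {n : T → ℕ} (hn : ∀ t, 2 ≤ n t)
    (α : ∀ t, Nat.Primes → Fin (n t) → ℂ) (μ : ∀ t, Fin (n t) → ℂ) (h : ∀ t, SphericalCuspForm (α t) (μ t)) :
    ∃ b : ℝ, 1 / 2 ≤ b ∧ b ≤ 1 ∧ (∀ c : ℝ, ZeroPole α c ↔ c < b) ∧ (∀ t i, 2 * |(μ t i).re| ≤ b) ∧
      (∀ c : ℝ, (c < b ∨ ∃ (t : T) (p : Nat.Primes) (i : Fin (n t)), c < 2 * |Real.logb ((p : ℕ) : ℝ) ‖α t p i‖|) → ∀ δ : ℝ, 0 < δ →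
        (∀ᶠ X : ℝ in atTop, X ^ c ≤ deficiencyBetween α (X ^ (1 - δ)) X) ∧
        (1 / 2 ≤ c → ∀ᶠ X : ℝ in atTop, X ^ c ≤ deficiencyOfPrimes α (X ^ (1 - δ)) X)) ∧
      (∀ ε : ℝ, 0 < ε → ∀ᶠ X : ℝ in atTop,
        excess α X ≤ X ^ ε * deficiency α (X ^ (1 + ε)) ∧
        deficiency α X ≤ X ^ ε * (X ^ b + excess α (X ^ (1 + ε)))) ∧
      (∀ c : ℝ, (∀ ε : ℝ, 0 < ε → ∀ᶠ X : ℝ in atTop, deficiency α X ≤ X ^ (c + ε)) ↔
        b ≤ c ∧ ∀ ε : ℝ, 0 < ε → ∀ᶠ X : ℝ in atTop, excess α X ≤ X ^ (c + ε)) := by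
  classical
  choose κ hrep hκp using fun t => sph_rep (hn t) (h t)
  have hiso : ∀ t, IsobaricRep 1 ∅ (rs (α t)) (fun _ _ => 0) (κ t) := fun t => iso_of (hrep t)
  have hR : ∑ _t : T, 1 = Fintype.card T := by simp
  have hr : ∀ t, 1 < n t ^ 2 := fun t => by have := hn t; nlinarith
  obtain ⟨M, ⟨eM⟩⟩ : ∃ M : ℕ, Nonempty (Fin M ≃ Σ t, Fin (n t ^ 2)) := ⟨_, ⟨(Fintype.equivFin _).symm⟩⟩
  obtain ⟨N, ⟨eN⟩⟩ : ∃ N : ℕ, Nonempty (Fin N ≃ Σ t, Fin (n t ^ 2 - 1)) := ⟨_, ⟨(Fintype.equivFin _).symm⟩⟩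
  have hN : 1 ≤ N := by
    obtain ⟨t⟩ := ‹Nonempty T›
    have h1 := hr t
    exact (eN.symm ⟨t, ⟨0, by omega⟩⟩).pos
  have hdat := Pool.Agent.H274.Iso.dat_fam (r := fun _ : T => 1) hiso eM eN
  obtain ⟨b, hb2, hb1, hbS, hlaw⟩ := Pool.Agent.H274.Iso.law hN hdat
  simp only [hR] at hbS hlaw
  -- the sums
  have hWT : ∀ x : PS ∅ × ℕ, WT (fun t => rs (α t)) x = W α x.1.1 (x.2 + 1) := fun x => rfl
  have hE : ∀ X : ℝ, 0 < X → excess α X =
      ExcY (Fintype.card T) (WT (fun t => rs (α t))) (Real.log X) := by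
    intro X hX
    unfold excess ExcY Pool.Agent.Y816.GL3T.SS
    rw [← pe.tsum_eq]
    refine tsum_congr fun x => ?_
    simp only [Pool.Agent.TH949.TX.LL_le hX, hWT]
    rfl
  have hD : ∀ X : ℝ, 0 < X → deficiency α X =
      DefY (Fintype.card T) (WT (fun t => rs (α t))) (Real.log X) := by
    intro X hX
    unfold deficiency DefY Pool.Agent.Y816.GL3T.SS
    rw [← pe.tsum_eq]
    refine tsum_congr fun x => ?_
    simp only [Pool.Agent.TH949.TX.LL_le hX, hWT]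
    rfl
  have hsing : ∀ c : ℝ, ZeroPole α c ↔ SingD (Fintype.card T) (WT (S := ∅) (fun t => rs (α t))) c := by
    intro c
    have key : ∀ s : ℂ, 1 < s.re → ∑ t, logL (α t) s = lgD (WT (S := ∅) (fun t => rs (α t))) s := by
      intro s hs
      rw [Pool.Agent.H274.Iso.lgD_WT (fun t => (hiso t).summable) hs]
      exact Finset.sum_congr rfl fun t _ => (logRS_rs (α t) s).symm
    constructor
    · rintro ⟨F, ρ, h1, h2, h3, h4⟩
      refine ⟨F, ρ, h1, fun s hs => ?_, h3, h4⟩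
      rw [Finset.prod_empty, mul_one, h2 s hs, key s hs]
    · rintro ⟨F, ρ, h1, h2, h3, h4⟩
      refine ⟨F, ρ, h1, fun s hs => ?_, h3, h4⟩
      have h5 := h2 s hs
      rw [Finset.prod_empty, mul_one] at h5
      rw [h5, key s hs]
  have hlaw' : ∀ ε : ℝ, 0 < ε → ∀ᶠ X : ℝ in atTop,
      X ^ (b - ε) ≤ deficiency α X ∧
      excess α X ≤ X ^ ε * deficiency α (X ^ (1 + ε)) ∧
      deficiency α X ≤ X ^ ε * (X ^ b + excess α (X ^ (1 + ε))) := by
    intro ε hε
    filter_upwards [Real.tendsto_log_atTop.eventually (hlaw ε hε), eventually_gt_atTop 0] with X hX hX0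
    have e1 : ∀ c : ℝ, Real.exp (c * Real.log X) = X ^ c := fun c => by
      rw [Real.rpow_def_of_pos hX0, mul_comm]
    have e2 : (1 + ε) * Real.log X = Real.log (X ^ (1 + ε)) := (Real.log_rpow hX0 _).symm
    have hX1 : 0 < X ^ (1 + ε) := by positivity
    rw [e1, e1, e1, e2] at hX
    rw [hE X hX0, hE _ hX1, hD X hX0, hD _ hX1]
    exact hX
  refine ⟨b, hb2, hb1, fun c => (hsing c).trans (hbS c), fun t i => ?_, fun c hc δ hδ => ?_,
    fun ε hε => (hlaw' ε hε).mono fun X hX => hX.2, fun c => ⟨fun hc => ?_, fun hc ε hε => ?_⟩⟩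
  · -- the real place
    rcases (by positivity : 0 ≤ 2 * |(μ t i).re|).eq_or_lt with h0 | h0
    · rw [← h0]
      linarith
    · obtain ⟨j, hj⟩ := kappa_zero (h t) (hκp t) i h0
      obtain ⟨G, Ξ, Q, ω, hG, hΞ, hQ, hω, hEE, hgr, hid, hfe⟩ := hdat.continuation
      refine le_of_forall_lt fun c hcx => (hbS c).1 ?_
      rw [← hR]
      refine Pool.Agent.H274.Iso.sing_zero hdat.nonneg hdat.summable hG hEE h0 hcx ?_
      rw [Pool.Agent.H274.Iso.gam_zero_r hQ hG hΞ hid (j := eN.symm ⟨t, j⟩) ?_ h0, zero_mul]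
      show κ (eN (eN.symm ⟨t, j⟩)).1 (eN (eN.symm ⟨t, j⟩)).2 = _
      rw [Equiv.apply_symm_apply]
      exact hj
  · -- small traces
    have hadm : Pool.Agent.H274.Iso.AdmT (fun _ : T => 1) ∅ (fun t => rs (α t)) (fun _ _ _ => 0) κ c := by
      rcases hc with hc | ⟨t, p, i, hc⟩
      · refine Or.inr (Or.inr (Or.inr (Or.inr ?_)))
        rw [hR]
        exact (hbS c).2 hc
      · exact Or.inr (Or.inl ⟨t, ⟨p, Finset.notMem_empty _⟩, i, hc⟩)
    have hkey := Pool.Agent.H274.Iso.fam_key (r := fun _ : T => 1) hiso hr hadm hδ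
    obtain ⟨h1, h2, -⟩ := Pool.Agent.H274.Iso.fin_r (by rw [hR]; exact Fintype.card_pos)
      (W := WT (S := ∅) (fun t => rs (α t))) (fun x => Finset.sum_nonneg fun t _ => by positivity) hkey
    rw [hR] at h1 h2
    refine ⟨?_, fun hc2 => ?_⟩
    · filter_upwards [h1] with X hX
      unfold deficiencyBetween
      rw [← pe.tsum_eq]
      exact hX
    · filter_upwards [h2 hc2] with X hX
      unfold deficiencyOfPrimes
      rw [← (Equiv.subtypeUnivEquiv fun p => Finset.notMem_empty p : PS ∅ ≃ Nat.Primes).tsum_eq]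
      exact hX
  · -- `D ≤ X^{c+o(1)}` implies the two conditions
    have hbc : b ≤ c := by
      by_contra hlt
      push Not at hlt
      have hε : 0 < (b - c) / 3 := by linarith
      obtain ⟨X, ⟨h1, -⟩, h2, h3⟩ := ((hlaw' _ hε).and ((hc _ hε).and (eventually_gt_atTop 1))).exists
      have h4 : X ^ (c + (b - c) / 3) < X ^ (b - (b - c) / 3) :=
        Real.rpow_lt_rpow_of_exponent_lt h3 (by linarith)
      linarith
    refine ⟨hbc, fun ε hε => ?_⟩
    obtain ⟨η, hη, hη2⟩ : ∃ η : ℝ, 0 < η ∧ η + (c + η) * (1 + η) ≤ c + ε := by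
      have hc0 : 0 < c := by linarith
      refine ⟨min 1 (ε / (3 + c)), lt_min one_pos (by positivity), ?_⟩
      set η := min 1 (ε / (3 + c))
      have h1 : η ≤ 1 := min_le_left _ _
      have h2 : η ≤ ε / (3 + c) := min_le_right _ _
      have h3 : 0 < η := lt_min one_pos (by positivity)
      have h4 : η * (3 + c) ≤ ε := by rwa [le_div_iff₀ (by positivity)] at h2
      nlinarith
    have h5 : Tendsto (fun X : ℝ => X ^ (1 + η)) atTop atTop := tendsto_rpow_atTop (by linarith)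
    filter_upwards [hlaw' η hη, h5.eventually (hc η hη), eventually_gt_atTop 1] with X h1 h2 h3
    have h0 : 0 < X := by linarith
    calc excess α X ≤ X ^ η * deficiency α (X ^ (1 + η)) := h1.2.1
      _ ≤ X ^ η * (X ^ (1 + η)) ^ (c + η) := by gcongr
      _ = X ^ (η + (c + η) * (1 + η)) := by
          rw [← Real.rpow_mul h0.le, ← Real.rpow_add h0]
          congr 1
          ring
      _ ≤ X ^ (c + ε) := Real.rpow_le_rpow_of_exponent_le h3.le hη2
  · obtain ⟨hbc, hc⟩ := hc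
    obtain ⟨η, hη, hη2⟩ : ∃ η : ℝ, 0 < η ∧ η + (c + η) * (1 + η) ≤ c + ε / 2 := by
      have hc0 : 0 < c := by linarith
      refine ⟨min 1 (ε / 2 / (3 + c)), lt_min one_pos (by positivity), ?_⟩
      set η := min 1 (ε / 2 / (3 + c))
      have h1 : η ≤ 1 := min_le_left _ _
      have h2 : η ≤ ε / 2 / (3 + c) := min_le_right _ _
      have h3 : 0 < η := lt_min one_pos (by positivity)
      have h4 : η * (3 + c) ≤ ε / 2 := by rwa [le_div_iff₀ (by positivity)] at h2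
      nlinarith
    have h5 : Tendsto (fun X : ℝ => X ^ (1 + η)) atTop atTop := tendsto_rpow_atTop (by linarith)
    have h6 : ∀ᶠ X : ℝ in atTop, 2 ≤ X ^ (ε / 2) :=
      (tendsto_rpow_atTop (by positivity : 0 < ε / 2)).eventually (eventually_ge_atTop 2)
    filter_upwards [hlaw' η hη, h5.eventually (hc η hη), eventually_gt_atTop 1, h6] with X h1 h2 h3 h4
    have h0 : 0 < X := by linarith
    have h7 : X ^ η * X ^ b ≤ X ^ (c + ε / 2) := by
      rw [← Real.rpow_add h0]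
      refine Real.rpow_le_rpow_of_exponent_le h3.le ?_
      nlinarith
    have h8 : X ^ η * excess α (X ^ (1 + η)) ≤ X ^ (c + ε / 2) := by
      calc X ^ η * excess α (X ^ (1 + η)) ≤ X ^ η * (X ^ (1 + η)) ^ (c + η) := by gcongr
        _ = X ^ (η + (c + η) * (1 + η)) := by
            rw [← Real.rpow_mul h0.le, ← Real.rpow_add h0]
            congr 1
            ring
        _ ≤ X ^ (c + ε / 2) := Real.rpow_le_rpow_of_exponent_le h3.le hη2
    calc deficiency α X ≤ X ^ η * (X ^ b + excess α (X ^ (1 + η))) := h1.2.2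
      _ = X ^ η * X ^ b + X ^ η * excess α (X ^ (1 + η)) := by ring
      _ ≤ 2 * X ^ (c + ε / 2) := by linarith
      _ ≤ X ^ (ε / 2) * X ^ (c + ε / 2) := by gcongr
      _ = X ^ (c + ε) := by
          rw [← Real.rpow_add h0]
          congr 1
          ring

end Pool.Agent.Results.MP_fa98d2_nt.ExcessDeficiencyFamilies
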