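import Pool.Agent.V1142.FT.Mult

/-!
# Spherical cusp forms on `PGL_3` with few tempered primes

Let `φ` be a spherical cusp form on `PGL_3` over `ℚ`, generating the automorphic representation `π`, with Satake
parameters `α_{i,p}` and Hecke eigenvalues `λ(p) = ∑_i α_{i,p}`. The generalized Ramanujan conjecture says that every
prime is *tempered*, i.e. `|α_{i,p}| = 1` for all `i`. We describe the forms for which the conjecture fails at all primes
outside a thin set. Suppose that for some `c < 1`

  the number of the tempered primes `p ≤ x` is `O(x^c)`.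

Then:

1. `c ≥ 9/17`;
2. `π` is not self-dual;
3. for **every** Dirichlet character `χ` the functions `L(s, π × χ)` and `L(s, π × π × χ)` are entire and have no zeros
   in the half-plane `Re s > (1 + c)/2`, and `L(s, π × π~ × χ) / L(s, χ)` has neither zeros nor poles in `Re s > c`: so
   a quasi-Riemann hypothesis holds, with the same half-plane for all `χ`;
4. there is a completely multiplicative function `f` with values in the cube roots of unity such that, for all `t > c`,
   `∑_p |λ(p) + f(p)|² p^{-t} < ∞` and `∑_p ∑_i (|α_{i,p}| - 1)² p^{-t} < ∞` (the conjecture is nearly true), and such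
   that for every `χ` the series `∑_n f(n) χ(n) n^{-s}` (`Re s > 1`) has a holomorphic continuation without zeros to
   `Re s > (1 + c)/2`; in particular it has no pole at `s = 1`.

So for a self-dual form, and for every form such that `L(s, π × χ)` or `L(s, π × π × χ)` has a zero with real part `β` for
some `χ`, the number of tempered primes is not `O(x^c)` for `c < 1`, respectively for `c < 2 β - 1`: a violation of the
Riemann hypothesis for these `L`-functions forces the Ramanujan conjecture to hold at many primes.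

The structure `CuspFormPGL3` lists what is used of `φ`; all of it is known: the local components are unitary with trivial
central character; the Rankin-Selberg series converges absolutely for `Re s > 1`; `L(s, π × π~)` is entire except for a
simple pole at `s = 1`, of polynomial growth in vertical strips, with its functional equation; `L(s, π × χ)` is entire
and nonzero at `s = 1`; `(s - 1) L(s, π × π × χ)` is entire (Jacquet, Piatetski-Shapiro, Shalika; Moeglin, Waldspurger).

The proof: a nontempered prime has parameters `(X u, u / X, u⁻²)` with `|u| = 1`, `X > 1`, so that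
`|λ(p)|² - 1 = T² + 2 T Re u³`, `T = X + 1/X ≥ 2`, is nonnegative, and it bounds `|λ(p) + ω|²` for a cube root of unity
`ω`, `|λ(p)² + conj λ(p)|²` and `∑_i (|α_{i,p}| - 1)²`; similarly for the powers. By Landau's lemma the Dirichlet
series of `log (L(s, π × π~) / ζ(s))` converges absolutely for `Re s > c`. By Cauchy's inequality the logarithms of
`L(s, π × π × χ) L(s, π~ × χ)` and of `L(s, π × χ) ∑ f(n) χ(n) n^{-s}` are absolutely convergent Dirichlet series for
`Re s > (1 + c)/2`. The first product is therefore without zeros and poles there; as `L(1, π~ × χ) ≠ 0`, the first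
factor has no pole, and neither factor has a zero. Then the second product gives 4.
-/

set_option autoImplicit false

namespace Pool.Agent.Results.MP_fa98d2_nt.FewTemperedPrimes

open Pool.Agent.Y816.GL3R Pool.Agent.V1142.FT

/-- **Spherical cusp forms on `PGL_3` with few tempered primes.** -/
theorem result (α : Nat.Primes → Fin 3 → ℂ) (μ : Fin 3 → ℂ) (h : CuspFormPGL3 α μ) (c C : ℝ) (hc : c < 1)
    (hfew : ∀ x : ℝ, 1 ≤ x → (({p : Nat.Primes | ((p : ℕ) : ℝ) ≤ x ∧ ∀ i, ‖α p i‖ = 1}.ncard : ℕ) : ℝ) ≤ C * x ^ c) :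
    9 / 17 ≤ c ∧
    (¬ ∀ p, ∃ τ : Equiv.Perm (Fin 3), ∀ i, α p (τ i) = (α p i)⁻¹) ∧
    (∀ (q : ℕ) [NeZero q] (χ : DirichletCharacter ℂ q),
      (∃ E : ℂ → ℂ, Differentiable ℂ E ∧ (∀ s : ℂ, 1 < s.re → E s = Complex.exp (logE χ (tr α) s)) ∧
        ∀ s : ℂ, (1 + c) / 2 < s.re → E s ≠ 0) ∧
      (∃ H : ℂ → ℂ, Differentiable ℂ H ∧
        (∀ s : ℂ, 1 < s.re → H s = Complex.exp (logE χ (fun p k => tr α p k ^ 2) s)) ∧
        ∀ s : ℂ, (1 + c) / 2 < s.re → H s ≠ 0) ∧
      ∃ F : ℂ → ℂ, DifferentiableOn ℂ F {s | c < s.re} ∧ (∀ s : ℂ, c < s.re → F s ≠ 0) ∧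
        ∀ s : ℂ, 1 < s.re → F s * DirichletCharacter.LFunction χ s =
          Complex.exp (logE χ (fun p k => ((‖tr α p k‖ ^ 2 : ℝ) : ℂ)) s)) ∧
    ∃ f : ℕ →*₀ ℂ, (∀ n, n ≠ 0 → f n ^ 3 = 1) ∧
      (∀ t : ℝ, c < t →
        (Summable fun p : Nat.Primes => ‖∑ i, α p i + f p‖ ^ 2 * ((p : ℕ) : ℝ) ^ (-t)) ∧
        Summable fun p : Nat.Primes => (∑ i, (‖α p i‖ - 1) ^ 2) * ((p : ℕ) : ℝ) ^ (-t)) ∧
      ∀ (q : ℕ) [NeZero q] (χ : DirichletCharacter ℂ q),
        ∃ D : ℂ → ℂ, DifferentiableOn ℂ D {s | (1 + c) / 2 < s.re} ∧ (∀ s : ℂ, (1 + c) / 2 < s.re → D s ≠ 0) ∧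
          ∀ s : ℂ, 1 < s.re → D s = LSeries (fun n => f n * χ (n : ZMod q)) s := by
  obtain ⟨h9, hd, hT, G, hG, hG1, hG2⟩ := landau3 h (of_count hfew)
  obtain ⟨ω, hω, h1, h2⟩ := roots h
  have hsq : ∀ t, c < t → Summable fun p : Nat.Primes => ‖∑ i, α p i + ω p‖ ^ 2 * ((p : ℕ) : ℝ) ^ (-t) := by
    intro t ht
    refine summable_first (C := 34) (by norm_num) (fun p => sq_nonneg _) (fun p hp => ?_) h2 hd hT ht
    linarith [h1 p hp]
  refine ⟨h9, not_selfdual h hc hd hT hG hG1 hG2, fun q _ χ => ⟨nonvanishing' h χ hc hd hT, ?_,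
    adjoint h.toSphericalCuspForm χ hd⟩, cm ω, fun n hn => cm_pow ω hω hn, fun t ht => ⟨?_, ?_⟩, fun q _ χ => ?_⟩
  · obtain ⟨E, H, -, hH, -, hH1, hH2⟩ := nonvanishing h χ hc hd hT
    exact ⟨H, hH, hH1, fun s hs => (hH2 s hs).2⟩
  · refine (hsq t ht).congr fun p => ?_
    rw [cm_prime]
  · refine summable_first (C := 1) zero_le_one (fun p => Finset.sum_nonneg fun i _ => sq_nonneg _) (fun p hp => ?_)
      (fun p hp => ?_) hd hT ht
    · rw [tmp_sum hp]
      exact zero_le_one
    · rw [one_mul]
      exact (local2 h hp).1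
  · exact mult h χ three_ne_zero hω (by linarith) hc hd hT hsq

end Pool.Agent.Results.MP_fa98d2_nt.FewTemperedPrimes
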