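import Mathlib
import Pool.Agent.V1158.RP.Count

/-!
# Spherical cusp forms on `PGL_n`: the Ramanujan conjecture up to `p ^ κ` for all primes in short windows

Let `φ` run through countably many (for example all) spherical cusp forms on `PGL_2` over `ℚ`, that is, Maass forms of
level one. For almost every `a > 0` and every sequence `u_m ≥ 1` with `∑ u_m ^ (-t) < ∞` for `t > τ`, all primes `p` with
`|p - a u_m| ≤ u_m ^ θ` have `θ_{φ,p} < κ` for all `κ > (θ + τ) / 8` and all large `m`; for the powers `u_m = b ^ m` this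
is every `κ > θ / 8`, while `7 / 64` is the exponent known for all primes. The same holds for all primes `p` with
`|p - β x ^ n| ≤ x ^ (θ n)` for some `n`, for almost every real `x > 1`. This comes from the symmetric fourth power of
Kim and the Rankin-Selberg method: at most `C X ^ (1 - 8 κ + ε)` primes `p ≤ X` have `θ_{φ,p} ≥ κ`. For `n ≤ 4` the
exterior powers of `φ` up to the middle are automorphic (Kim), and the same holds with `8` replaced by `2`.
-/

set_option autoImplicit false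

namespace Pool.Agent.Results.MP_fa98d2_nt.WindowsOfPrimes

open Filter MeasureTheory Pool.Agent.V1158.RP

/-- The Satake parameters `α p i`, `i < n`, at the primes `p`, of a spherical cusp form on `PGL_n` over `ℚ` and what is
used of them: their product is `1`; the local components are unitary, so that the parameters at `p` are permuted by
`x ↦ 1 / conj x`; and for `1 ≤ k ≤ n / 2` the series `∑_p |e_k(α p)|² p ^ (-s)`, where `e_k(α p)` is the trace of the
exterior power of degree `k`, converges for `s > 1`. For `k = 1` the last fact is due to Jacquet and Shalika; for `n = 4`,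
`k = 2` the exterior square is an isobaric sum of unitary cuspidal representations (Kim), so that it follows in the same
way. So for `n ≤ 4` all of this is known. -/
structure Form (n : ℕ) where
  α : Nat.Primes → Fin n → ℂ
  det : ∀ p, ∏ i, α p i = 1
  unitary : ∀ p, ∃ σ : Equiv.Perm (Fin n), ∀ i, α p (σ i) * (starRingEnd ℂ) (α p i) = 1
  exterior : ∀ k : ℕ, 1 ≤ k → k ≤ n / 2 → ∀ s : ℝ, 1 < s →
    Summable fun p : Nat.Primes =>
      ‖∑ S ∈ (Finset.univ : Finset (Fin n)).powersetCard k, ∏ i ∈ S, α p i‖ ^ 2 * (((p : ℕ) : ℝ)) ^ (-s)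

/-- The same for `n = 2`, with the fact that the symmetric fourth power is an isobaric sum of unitary cuspidal
representations (Kim), so that the series `∑_p |∑_j α_0^j α_1^(4-j)|² p ^ (-s)` converges for `s > 1` (Rankin-Selberg). -/
structure FormTwo extends Form 2 where
  symFour : ∀ s : ℝ, 1 < s → Summable fun p : Nat.Primes =>
    ‖∑ j ∈ Finset.range 5, α p 0 ^ j * α p 1 ^ (4 - j)‖ ^ 2 * (((p : ℕ) : ℝ)) ^ (-s)

/-- `θ_{φ,p} = max_i |log_p |α_{i,p}||` -/
noncomputable def Form.theta {n : ℕ} (φ : Form n) (p : Nat.Primes) : ℝ :=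
  ⨆ i, |Real.log ‖φ.α p i‖ / Real.log ((p : ℕ) : ℝ)|

/-- What is proved for a family `t j p` (`= θ_{φ_j,p}`) with the constant `c`.
(1) At most `C X ^ (1 - c κ + ε)` primes `p ≤ X` have `t j p ≥ κ`.
(2) Windows around `a u_m`: outside of a set of `a` of Hausdorff dimension at most `(1 - c κ + τ) / (1 - θ)`, for all
large `m`, all primes `p` with `|p - a u_m| ≤ u_m ^ θ` have `t j p < κ`.
(3) For almost every `a > 0` this holds for all `j` and `κ ≤ 1 / c` with `θ + τ < c κ`.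
(4) Windows around `β x ^ (ν_m)`, where `ν_m / log m → ∞`: outside of a set of `x > 1` of dimension at most
`(1 - c κ) / (1 - θ)` all large primes `p` with `|p - β x ^ (ν_m)| ≤ x ^ (θ ν_m)` for some `m` have `t j p < κ`.
(5) For almost every `x > 1` this holds for all `j`, all `κ ≤ 1 / c` with `θ < c κ`, and all `β` in a countable set. -/
def Law {J : Type} (t : J → Nat.Primes → ℝ) (c : ℝ) : Prop :=
  (∀ (j : J) (κ : ℝ), 0 < κ → c * κ ≤ 1 → ∀ ε : ℝ, 0 < ε → ∃ C : ℝ, ∀ X : ℝ, 1 ≤ X →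
    {p : Nat.Primes | κ ≤ t j p ∧ ((p : ℕ) : ℝ) ≤ X}.Finite ∧
    ({p : Nat.Primes | κ ≤ t j p ∧ ((p : ℕ) : ℝ) ≤ X}.ncard : ℝ) ≤ C * X ^ (1 - c * κ + ε)) ∧
  (∀ (u : ℕ → ℝ) (τ θ : ℝ), (∀ m, 1 ≤ u m) → 0 ≤ τ → (∀ s : ℝ, τ < s → Summable fun m : ℕ => u m ^ (-s)) → θ < 1 →
    (∀ κ : ℝ, 0 < κ → c * κ ≤ 1 → ∃ E : Set ℝ, dimH E ≤ ENNReal.ofReal ((1 - c * κ + τ) / (1 - θ)) ∧
      ∀ a : ℝ, 0 < a → a ∉ E → ∀ j : J, ∀ᶠ m in atTop, ∀ p : Nat.Primes,
        |((p : ℕ) : ℝ) - a * u m| ≤ u m ^ θ → t j p < κ) ∧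
    ∀ᵐ a : ℝ, 0 < a → ∀ (j : J) (κ : ℝ), 0 < κ → c * κ ≤ 1 → θ + τ < c * κ → ∀ᶠ m in atTop, ∀ p : Nat.Primes,
      |((p : ℕ) : ℝ) - a * u m| ≤ u m ^ θ → t j p < κ) ∧
  ∀ (ν : ℕ → ℝ) (B : Set ℝ), Tendsto (fun m : ℕ => ν m / Real.log m) atTop atTop → B.Countable →
    (∀ κ θ : ℝ, 0 < κ → c * κ ≤ 1 → θ < 1 → ∃ E : Set ℝ, dimH E ≤ ENNReal.ofReal ((1 - c * κ) / (1 - θ)) ∧
      ∀ x : ℝ, 1 < x → x ∉ E → ∀ β ∈ B, 0 < β → ∀ j : J, ∃ H : ℝ, ∀ p : Nat.Primes, H ≤ ((p : ℕ) : ℝ) →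
        (∃ m : ℕ, |((p : ℕ) : ℝ) - β * x ^ ν m| ≤ x ^ (θ * ν m)) → t j p < κ) ∧
    ∀ᵐ x : ℝ, 1 < x → ∀ (j : J) (κ θ : ℝ), 0 < κ → c * κ ≤ 1 → θ < c * κ → ∀ β ∈ B, 0 < β →
      ∃ H : ℝ, ∀ p : Nat.Primes, H ≤ ((p : ℕ) : ℝ) →
        (∃ m : ℕ, |((p : ℕ) : ℝ) - β * x ^ ν m| ≤ x ^ (θ * ν m)) → t j p < κ

lemma law_of_thin {J : Type} [Countable J] (t : J → Nat.Primes → ℝ) {c : ℝ} (hc : 0 < c)
    (h : Thin (fun j κ => {p | κ ≤ t j p}) c) : Law t c := by
  refine ⟨fun j κ hκ hκ1 ε hε => h.2 j κ hκ hκ1 ε hε, ?_, ?_⟩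
  · intro u τ θ hu hτ hgrow hθ
    refine ⟨fun κ hκ hκ1 => ?_, ?_⟩
    · obtain ⟨E, h1, h2⟩ := win_dim h hu hτ hgrow hθ hκ hκ1
      refine ⟨E, h1, fun a ha haE j => (h2 a ha haE j).mono fun m hm p hp => ?_⟩
      by_contra hcon
      exact absurd hp (not_le.2 (hm p (not_lt.1 hcon)))
    · filter_upwards [win_ae hc h hu hτ hgrow hθ] with a ha ha0 j κ hκ hκ1 hcond
      refine (ha ha0 j κ hκ hκ1 hcond).mono fun m hm p hp => ?_
      by_contra hcon
      exact absurd hp (not_le.2 (hm p (not_lt.1 hcon)))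
  · intro ν B hν hB
    refine ⟨fun κ θ hκ hκ1 hθ => ?_, ?_⟩
    · obtain ⟨E, h1, h2⟩ := near_dim h hν B hB hθ hκ hκ1
      refine ⟨E, h1, fun x hx hxE β hβ hβ0 j => ?_⟩
      obtain ⟨H, hH⟩ := h2 x hx hxE β hβ hβ0 j
      refine ⟨H, fun p hp hn => ?_⟩
      by_contra hcon
      exact absurd (hH p (not_lt.1 hcon) hn) (not_lt.2 hp)
    · filter_upwards [near_ae hc h hν B hB] with x hx hx1 j κ θ hκ hκ1 hθ β hβ hβ0
      obtain ⟨H, hH⟩ := hx hx1 j κ θ hκ hκ1 hθ β hβ hβ0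
      refine ⟨H, fun p hp hn => ?_⟩
      by_contra hcon
      exact absurd (hH p (not_lt.1 hcon) hn) (not_lt.2 hp)

/-- a prime with `θ_{φ,p} ≥ κ` has a parameter of modulus at least `p ^ κ` -/
lemma exists_param {n : ℕ} (φ : Form n) {p : Nat.Primes} {κ : ℝ} (hκ : 0 < κ) (h : κ ≤ φ.theta p) :
    ∃ i, pr p ^ κ ≤ ‖φ.α p i‖ := by
  have hp := two_le_pr p
  have hp0 : 0 < pr p := by linarith
  have hlog : 0 < Real.log (pr p) := Real.log_pos (by linarith)
  rcases isEmpty_or_nonempty (Fin n) with he | he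
  · unfold Form.theta at h
    rw [Real.iSup_of_isEmpty] at h
    linarith
  obtain ⟨i, hi⟩ := exists_eq_ciSup_of_finite (f := fun i => |Real.log ‖φ.α p i‖ / Real.log ((p : ℕ) : ℝ)|)
  have h1 : κ ≤ |Real.log ‖φ.α p i‖ / Real.log (pr p)| := h.trans (le_of_eq hi.symm)
  have hU : Unit1 (φ.α p) := φ.unitary p
  have hne := hU.ne i
  have hpos : 0 < ‖φ.α p i‖ := norm_pos_iff.2 hne
  rcases le_abs.1 h1 with h2 | h2
  · refine ⟨i, ?_⟩
    rw [le_div_iff₀ hlog] at h2
    rw [← Real.exp_log hpos, Real.rpow_def_of_pos hp0]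
    apply Real.exp_le_exp.2
    linarith
  · obtain ⟨σ, hσ⟩ := φ.unitary p
    have h3 : ‖φ.α p (σ i)‖ * ‖φ.α p i‖ = 1 := by
      have := congrArg norm (hσ i)
      rwa [norm_mul, RCLike.norm_conj, norm_one] at this
    have hpos' : 0 < ‖φ.α p (σ i)‖ := norm_pos_iff.2 (hU.ne _)
    have h4 : Real.log ‖φ.α p (σ i)‖ = - Real.log ‖φ.α p i‖ := by
      have := congrArg Real.log h3
      rw [Real.log_mul hpos'.ne' hpos.ne', Real.log_one] at this
      linarith
    refine ⟨σ i, ?_⟩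
    rw [← neg_div, le_div_iff₀ hlog, ← h4] at h2
    rw [← Real.exp_log hpos', Real.rpow_def_of_pos hp0]
    apply Real.exp_le_exp.2
    linarith

lemma summable_one {s : ℝ} (hs : 1 < s) : Summable fun p : Nat.Primes => pr p ^ (-s) := by
  have := (Nat.Primes.summable_rpow (r := -s)).2 (by linarith)
  exact this

/-- the exponent `1 - 2 κ` -/
lemma thin_two {J : Type} (n : J → ℕ) (φ : ∀ j, Form (n j)) :
    Thin (fun j κ => {p | κ ≤ (φ j).theta p}) 2 := by
  refine ⟨fun j κ κ' hκ p hp => hκ.trans hp, fun j κ hκ hκ1 ε hε => ?_⟩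
  have hfin : ∀ s : ℝ, 1 < s → Summable fun p : Nat.Primes =>
      (1 + ∑ k ∈ Finset.Icc 1 (n j / 2), ‖esym ((φ j).α p) k‖ ^ 2) * pr p ^ (-s) := by
    intro s hs
    have h1 : Summable fun p : Nat.Primes => ∑ k ∈ Finset.Icc 1 (n j / 2), ‖esym ((φ j).α p) k‖ ^ 2 * pr p ^ (-s) := by
      refine summable_sum fun k hk => ?_
      rw [Finset.mem_Icc] at hk
      exact (φ j).exterior k hk.1 hk.2 s hs
    refine ((summable_one hs).add h1).congr fun p => ?_
    rw [add_mul, one_mul, Finset.sum_mul]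
  rcases Nat.eq_zero_or_pos (n j) with hn | hn
  · have hempty : {p | κ ≤ (φ j).theta p} = (∅ : Set Nat.Primes) := by
      ext p
      simp only [Set.mem_ofPred_eq, Set.mem_empty_iff_false, iff_false, not_le]
      by_contra hcon
      obtain ⟨i, -⟩ := exists_param (φ j) hκ (not_lt.1 hcon)
      have := i.2
      omega
    refine ⟨0, fun X _ => ?_⟩
    simp only [hempty, Set.mem_empty_iff_false, false_and, Set.ofPred_false, Set.finite_empty, Set.ncard_empty,
      Nat.cast_zero, zero_mul, le_refl, and_self]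
  have hnR : (1 : ℝ) ≤ n j := by exact_mod_cast hn
  refine count_of_summable _ (fun p => 1 + ∑ k ∈ Finset.Icc 1 (n j / 2), ‖esym ((φ j).α p) k‖ ^ 2)
    (fun p => by positivity) hfin (c := 1 / (4 * (n j : ℝ) ^ 2)) (by positivity) hκ1 ?_ ε hε
  intro p hp
  obtain ⟨i, hi⟩ := exists_param (φ j) hκ hp
  have hp2 := two_le_pr p
  have hp0 : 0 < pr p := by linarith
  have hsq : pr p ^ (2 * κ) = (pr p ^ κ) ^ 2 := by
    rw [← Real.rpow_natCast (pr p ^ κ), ← Real.rpow_mul hp0.le]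
    norm_num
    ring_nf
  rw [hsq]
  have hnn : 0 ≤ ∑ k ∈ Finset.Icc 1 (n j / 2), ‖esym ((φ j).α p) k‖ ^ 2 :=
    Finset.sum_nonneg fun k _ => by positivity
  have hpk : 0 < pr p ^ κ := Real.rpow_pos_of_pos hp0 _
  rcases lt_or_ge (pr p ^ κ) 2 with h2 | h2
  · have h3 : 1 / (4 * (n j : ℝ) ^ 2) * (pr p ^ κ) ^ 2 ≤ 1 := by
      rw [div_mul_eq_mul_div, one_mul, div_le_one (by positivity)]
      nlinarith
    linarith
  · obtain ⟨k, hk, hlarge⟩ := exists_large ((φ j).unitary p) h2 hi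
    have h3 : ‖esym ((φ j).α p) k‖ ^ 2 ≤ ∑ k ∈ Finset.Icc 1 (n j / 2), ‖esym ((φ j).α p) k‖ ^ 2 :=
      Finset.single_le_sum (f := fun k => ‖esym ((φ j).α p) k‖ ^ 2) (fun k _ => by positivity) hk
    have h4 : (pr p ^ κ / (2 * (n j : ℝ))) ^ 2 ≤ ‖esym ((φ j).α p) k‖ ^ 2 :=
      pow_le_pow_left₀ (by positivity) hlarge 2
    have h5 : 1 / (4 * (n j : ℝ) ^ 2) * (pr p ^ κ) ^ 2 = (pr p ^ κ / (2 * (n j : ℝ))) ^ 2 := by
      rw [div_pow, mul_pow]
      norm_num
      ring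
    rw [h5]
    linarith

/-- the trace of the symmetric fourth power at a non-tempered prime -/
lemma sym_large (φ : FormTwo) {p : Nat.Primes} {M : ℝ} (hM : 1 < M) {i : Fin 2} (hi : M ≤ ‖φ.α p i‖) :
    M ^ 4 ≤ ‖∑ j ∈ Finset.range 5, φ.α p 0 ^ j * φ.α p 1 ^ (4 - j)‖ := by
  have hU : Unit1 (φ.α p) := φ.unitary p
  have hdet : φ.α p 0 * φ.α p 1 = 1 := by
    have := φ.det p
    rwa [Fin.prod_univ_two] at this
  obtain ⟨σ, hσ⟩ := φ.unitary p
  set x := φ.α p 0 with hx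
  set y := φ.α p 1 with hy
  have hx0 : x ≠ 0 := hU.ne 0
  have hy0 : y ≠ 0 := hU.ne 1
  -- the modulus of `x` is not one
  have hne : ‖x‖ ≠ 1 := by
    intro h1
    have h2 : ‖y‖ = 1 := by
      have := congrArg norm hdet
      rw [norm_mul, h1, one_mul, norm_one] at this
      exact this
    fin_cases i
    · exact absurd (hi.trans (le_of_eq h1)) (not_le.2 hM)
    · exact absurd (hi.trans (le_of_eq h2)) (not_le.2 hM)
  -- so `x` is real
  have hreal : (starRingEnd ℂ) x = x := by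
    have h0 := hσ 0
    rcases Fin.exists_fin_two.1 ⟨σ 0, rfl⟩ with h | h
    · exfalso
      rw [h] at h0
      have h1 : ‖x‖ * ‖x‖ = 1 := by
        have := congrArg norm h0
        rwa [norm_mul, RCLike.norm_conj, norm_one] at this
      exact hne (by nlinarith [norm_nonneg x])
    · rw [h] at h0
      have h1 : y * (starRingEnd ℂ) x = y * x := by
        rw [mul_comm y x, hdet]
        exact h0
      exact mul_left_cancel₀ hy0 h1
  obtain ⟨r, hr⟩ : ∃ r : ℝ, x = (r : ℂ) := ⟨x.re, (Complex.conj_eq_iff_re.1 hreal).symm⟩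
  have hr0 : r ≠ 0 := by
    rintro rfl
    exact hx0 (by rw [hr]; simp)
  have hyr : y = ((r⁻¹ : ℝ) : ℂ) := by
    rw [eq_comm, Complex.ofReal_inv, ← hr]
    exact (eq_inv_of_mul_eq_one_right hdet).symm
  have hsum : ∑ j ∈ Finset.range 5, x ^ j * y ^ (4 - j) =
      (((r⁻¹) ^ 4 + r⁻¹ ^ 2 + 1 + r ^ 2 + r ^ 4 : ℝ) : ℂ) := by
    rw [hr, hyr]
    simp only [Finset.sum_range_succ, Finset.sum_range_zero]
    push_cast
    have hrC : (r : ℂ) ≠ 0 := by exact_mod_cast hr0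
    field_simp
    ring
  rw [hsum, Complex.norm_real, Real.norm_eq_abs]
  have hpos1 : 0 ≤ r⁻¹ ^ 2 := by positivity
  have hpos2 : 0 ≤ r ^ 2 := by positivity
  have hpos3 : 0 ≤ r⁻¹ ^ 4 := by positivity
  have hpos4 : 0 ≤ r ^ 4 := by positivity
  rw [abs_of_nonneg (by positivity)]
  have hM0 : 0 ≤ M := by linarith
  fin_cases i
  · have h1 : M ≤ |r| := by
      have h2 : M ≤ ‖x‖ := hi
      rwa [hr, Complex.norm_real, Real.norm_eq_abs] at h2
    have h2 : M ^ 4 ≤ |r| ^ 4 := pow_le_pow_left₀ hM0 h1 4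
    rw [Even.pow_abs (by decide)] at h2
    linarith
  · have h1 : M ≤ |r⁻¹| := by
      have h2 : M ≤ ‖y‖ := hi
      rwa [hyr, Complex.norm_real, Real.norm_eq_abs] at h2
    have h2 : M ^ 4 ≤ |r⁻¹| ^ 4 := pow_le_pow_left₀ hM0 h1 4
    rw [Even.pow_abs (by decide)] at h2
    linarith

/-- the exponent `1 - 8 κ` -/
lemma thin_eight {J : Type} (φ : J → FormTwo) : Thin (fun j κ => {p | κ ≤ (φ j).theta p}) 8 := by
  refine ⟨fun j κ κ' hκ p hp => hκ.trans hp, fun j κ hκ hκ1 ε hε => ?_⟩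
  refine count_of_summable _ (fun p => ‖∑ i ∈ Finset.range 5, (φ j).α p 0 ^ i * (φ j).α p 1 ^ (4 - i)‖ ^ 2)
    (fun p => by positivity) (fun s hs => (φ j).symFour s hs) (c := 1) one_pos hκ1 ?_ ε hε
  intro p hp
  obtain ⟨i, hi⟩ := exists_param (φ j).toForm hκ hp
  have hp2 := two_le_pr p
  have hp0 : 0 < pr p := by linarith
  have hone : 1 < pr p ^ κ := Real.one_lt_rpow (by linarith) hκ
  have h1 := sym_large (φ j) hone hi
  have h2 := pow_le_pow_left₀ (by positivity) h1 2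
  have h3 : pr p ^ (8 * κ) = ((pr p ^ κ) ^ 4) ^ 2 := by
    rw [← pow_mul, ← Real.rpow_natCast (pr p ^ κ), ← Real.rpow_mul hp0.le]
    norm_num
    ring_nf
  rw [h3, one_mul]
  exact h2

/-- **Theorem.** The five statements of `Law` hold with `c = 8` for every countable family of spherical cusp forms on
`PGL_2`, and with `c = 2` for every countable family of spherical cusp forms on `PGL_n`, `n ≤ 4` (for larger `n` if the
exterior powers up to the middle have the property in `Form`). -/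
theorem result :
    (∀ (J : Type) [Countable J] (φ : J → FormTwo), Law (fun j => (φ j).theta) 8) ∧
    (∀ (J : Type) [Countable J] (n : J → ℕ) (φ : ∀ j, Form (n j)), Law (fun j => (φ j).theta) 2) :=
  ⟨fun _ _ φ => law_of_thin _ (by norm_num) (thin_eight φ),
    fun _ _ n φ => law_of_thin _ (by norm_num) (thin_two n φ)⟩

end Pool.Agent.Results.MP_fa98d2_nt.WindowsOfPrimes
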